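import Pool.Agent.H31.LEV.Targets

/-!
[CAU] Cauchy's theorem for the logarithmic derivative on a rectangle.
-/

set_option autoImplicit false

open Complex Filter Topology Set

open Pool.Agent.H31.LEV

open scoped Interval

namespace Pool.Agent.H41.LEV

theorem cau_pt_re (x t : ℝ) : (pt x t).re = x := by
  simp [pt]

theorem cau_pt_im (x t : ℝ) : (pt x t).im = t := by
  simp [pt]

theorem pf_CAU : T_CAU := by
  intro g U c d hcd hU hR hg hne
  have hsub : ([[(pt (1 / 2) c).re, (pt 3 d).re]] ×ℂ [[(pt (1 / 2) c).im, (pt 3 d).im]])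
      ⊆ Rc (1 / 2) 3 c d := by
    intro z hz
    rw [mem_reProdIm, cau_pt_re, cau_pt_re, cau_pt_im, cau_pt_im, uIcc_of_le (by norm_num),
      uIcc_of_le hcd, mem_Icc, mem_Icc] at hz
    exact ⟨hz.1.1, hz.1.2, hz.2.1, hz.2.2⟩
  have hdiff : DifferentiableOn ℂ (fun z => deriv g z / g z)
      ([[(pt (1 / 2) c).re, (pt 3 d).re]] ×ℂ [[(pt (1 / 2) c).im, (pt 3 d).im]]) := by
    intro z hz
    have hzR := hsub hz
    have hzU : U ∈ 𝓝 z := hU.mem_nhds (hR hzR)
    have h1 : DifferentiableAt ℂ g z := hg.differentiableAt hzU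
    have h2 : DifferentiableAt ℂ (deriv g) z := (hg.deriv hU).differentiableAt hzU
    exact (h2.div h1 (hne z hzR)).differentiableWithinAt
  have key := Complex.integral_boundary_rect_eq_zero_of_differentiableOn
    (fun z => deriv g z / g z) (pt (1 / 2) c) (pt 3 d) hdiff
  rw [cau_pt_re, cau_pt_re, cau_pt_im, cau_pt_im] at key
  have key2 := congrArg Complex.im key
  simp only [smul_eq_mul, sub_im, add_im, I_mul_im, zero_im] at key2
  unfold TSi LSi pt
  linarith [key2]

end Pool.Agent.H41.LEV
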